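import Pool.Agent.U173.TT.Crit

/-!
# Exact criterion for the generation of Tate classes by divisors, second part
-/

set_option autoImplicit false
set_option linter.unusedSectionVars false

namespace Pool.Agent.U173.TT

open NumberField Module Equiv Pool.Agent.H204R3.CM Pool.Agent.H977R3.CM Pool.Agent.W546.GHC
  Pool.Agent.W547.KB Pool.Agent.W530.NF Pool.Agent.N90.HG Pool.Agent.N90.TD

noncomputable section

variable {p a : ℕ} [Fact p.Prime] {ι : Type} [Fintype ι] {E : ι → Type} [∀ i, Field (E i)]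
  [∀ i, NumberField (E i)] [∀ i, IsCMField (E i)] {π : ∀ i, E i}
  (hπ : IsOrdinaryFamily p a E π)

/-- the embeddings into `L` and into the complex numbers -/
def emb {L : Type} [Field L] (j : L →+* ℂ)
    (h : ∀ i, ∀ ψ : E i →+* ℂ, ∃ φ : E i →+* L, j.comp φ = ψ) (i : ι) :
    (E i →+* L) ≃ (E i →+* ℂ) :=
  Equiv.ofBijective (fun φ => j.comp φ)
    ⟨fun _ _ hφ => RingHom.ext fun x => j.injective (RingHom.congr_fun hφ x), h i⟩

theorem emb_apply {L : Type} [Field L] (j : L →+* ℂ)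
    (h : ∀ i, ∀ ψ : E i →+* ℂ, ∃ φ : E i →+* L, j.comp φ = ψ) (i : ι) (φ : E i →+* L) :
    emb j h i φ = j.comp φ := rfl

theorem mon_eq {L : Type} [Field L] [NumberField L] (j : L →+* ℂ)
    (h : ∀ i, ∀ ψ : E i →+* ℂ, ∃ φ : E i →+* L, j.comp φ = ψ) (n : ∀ i, (E i →+* ℂ) → ℤ) :
    j (mon π fun i φ => n i (j.comp φ)) = ∏ i, ∏ ψ : E i →+* ℂ, ψ (π i) ^ n i ψ := by
  unfold mon
  rw [map_prod]
  refine Finset.prod_congr rfl fun i _ => ?_
  rw [map_prod]
  refine Fintype.prod_equiv (emb j h i) _ _ fun φ => ?_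
  rw [map_zpow₀]
  rfl

include hπ in
/-- angle relations are the relations between the types -/
theorem angle_iff (ν : PadicAlgCl p ≃+* ℂ) {L : Type} [Field L] [NumberField L] [IsGalois ℚ L]
    (j : L →+* ℂ) (h : ∀ i, ∀ ψ : E i →+* ℂ, ∃ φ : E i →+* L, j.comp φ = ψ)
    (n : ∀ i, (E i →+* ℂ) → ℤ) :
    IsAngleRelation π n ↔ IsRel (typ π ν) j fun i φ => n i (j.comp φ) := by
  constructor
  · rintro ⟨h1, s, hs, h2⟩
    refine rel_of_root hπ ν j _ (fun i φ => ?_) hs ?_
    · rw [comp_cbar, h1]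
    · apply j.injective
      rw [map_pow, mon_eq j h, h2, map_one]
  · intro hc
    refine ⟨fun i ψ => ?_, ?_⟩
    · obtain ⟨φ, rfl⟩ := h i ψ
      rw [← comp_cbar]
      exact hc.1 i φ
    · obtain ⟨s, hs, h1⟩ := root_of_rel hπ ν j _ hc
      refine ⟨s, hs, ?_⟩
      rw [← mon_eq j h, ← map_pow, h1, map_one]

include hπ in
/-- **The exact criterion.** -/
theorem crit [Nonempty ι] (K : Type) [Field K] [CharZero K] {J : Type} [Fintype J] (t : J → ι) :
    TateGenerated (frob K π t) (p ^ a) ↔ OnlyTrivialRelations π (mult t) := by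
  classical
  obtain ⟨ν⟩ := Pool.Agent.R401.Iso.exists_iso p
  have h0 : TateGenerated (frob K π t) (p ^ a) ↔ HodgeGenerated (per (typ π ν) t) := by
    rw [← generated_iff hπ ν]
    exact ⟨fun h => generated_down _ _ h, fun h => generated_up _ _ h⟩
  rw [h0]
  obtain ⟨L, _, _, _, j, hL⟩ := exists_closure hπ ν
  constructor
  · intro hgen n hn hle
    by_contra hcon
    push Not at hcon
    obtain ⟨i, ψ, hne⟩ := hcon
    obtain ⟨φ, rfl⟩ := hL i ψ
    exact not_generated_of_rel (isCMType_typ hπ ν) t j (separated_typ hπ ν j hL) hL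
      (fun i φ => n i (j.comp φ)) ((angle_iff hπ ν j hL n).1 hn) (fun i φ => hle i _)
      ⟨i, φ, hne⟩ hgen
  · intro hrel
    refine hodge_of_bounded (isCMType_typ hπ ν) t j hL fun c hc hle => ?_
    have h1 : (fun i φ => (fun i ψ => c i ((emb j hL i).symm ψ)) i (j.comp φ)) = c := by
      funext i φ
      change c i ((emb j hL i).symm (emb j hL i φ)) = c i φ
      rw [Equiv.symm_apply_apply]
    have h2 := hrel (fun i ψ => c i ((emb j hL i).symm ψ))
      ((angle_iff hπ ν j hL _).2 (by rw [h1]; exact hc)) (fun i ψ => hle i _)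
    intro i φ
    have h3 := h2 i (emb j hL i φ)
    simp only [Equiv.symm_apply_apply] at h3
    exact h3

include hπ in
/-- **Short relations.** -/
theorem short [Nonempty ι] {g N : ℕ} (hg : ∑ i, finrank ℚ (E i) = 2 * g)
    (hN : (g - 1) ^ (g - 1) < 4 ^ (g - 2) * (N + 1) ^ 2)
    (h : OnlyTrivialRelations π fun _ => N) (n : ∀ i, (E i →+* ℂ) → ℤ) (hn : IsAngleRelation π n)
    (i : ι) (φ : E i →+* ℂ) : n i φ = 0 := by
  classical
  obtain ⟨ν⟩ := Pool.Agent.R401.Iso.exists_iso p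
  obtain ⟨L, _, _, _, j, hL⟩ := exists_closure hπ ν
  by_contra hne
  have hg1 : 1 ≤ g := by
    obtain ⟨i⟩ := ‹Nonempty ι›
    have h2 : finrank ℚ (E i) ≤ ∑ i, finrank ℚ (E i) :=
      Finset.single_le_sum (f := fun i => finrank ℚ (E i)) (fun _ _ => Nat.zero_le _)
        (Finset.mem_univ i)
    have h3 : 0 < finrank ℚ (E i) := finrank_pos
    omega
  obtain ⟨k, rfl⟩ : ∃ k, g = k + 1 := ⟨g - 1, by omega⟩
  obtain ⟨φ', rfl⟩ := hL i φ
  obtain ⟨c', hc', hne', hle⟩ := Pool.Agent.N90.UB.small_rel (isCMType_typ hπ ν) j hL hg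
    (fun i φ => n i (j.comp φ)) ((angle_iff hπ ν j hL n).1 hn) ⟨i, φ', hne⟩
  have h1 : (fun i φ => (fun i ψ => c' i ((emb j hL i).symm ψ)) i (j.comp φ)) = c' := by
    funext i φ
    change c' i ((emb j hL i).symm (emb j hL i φ)) = c' i φ
    rw [Equiv.symm_apply_apply]
  have h2 := h (fun i ψ => c' i ((emb j hL i).symm ψ))
    ((angle_iff hπ ν j hL _).2 (by rw [h1]; exact hc')) (fun i ψ => by
      have h3 := hle i ((emb j hL i).symm ψ)
      have h4 : (c' i ((emb j hL i).symm ψ)) ^ 2 < ((N : ℤ) + 1) ^ 2 := by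
        have h5 : (4 : ℤ) ^ (k - 1) * (c' i ((emb j hL i).symm ψ)) ^ 2 <
            4 ^ (k - 1) * ((N : ℤ) + 1) ^ 2 := by
          refine lt_of_le_of_lt h3 ?_
          have h6 : k ^ k < 4 ^ (k - 1) * (N + 1) ^ 2 := by simpa using hN
          exact_mod_cast h6
        exact lt_of_mul_lt_mul_left h5 (by positivity)
      have h5 := abs_lt_of_sq_lt_sq h4 (by positivity)
      exact Int.lt_add_one_iff.1 h5)
  obtain ⟨i', φ'', hne''⟩ := hne'
  apply hne''
  have h3 := h2 i' (emb j hL i' φ'')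
  simp only [Equiv.symm_apply_apply] at h3
  exact h3

end

end Pool.Agent.U173.TT
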