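import Pool.Agent.U173.TT.DefsCM
import Pool.Agent.U173.TT.Main
import Pool.Agent.N90.CZ.Tate

/-!
# Exact criterion for products of powers of abelian varieties with complex multiplication
-/

set_option autoImplicit false
set_option linter.unusedSectionVars false

namespace Pool.Agent.U173.TT

open NumberField Module Equiv Pool.Agent.H204R3.CM Pool.Agent.H977R3.CM Pool.Agent.W546.GHC
  Pool.Agent.W547.KB Pool.Agent.W530.NF Pool.Agent.N90.HG

noncomputable section

variable {ι : Type} [Fintype ι] {E : ι → Type} [∀ i, Field (E i)]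
  [∀ i, NumberField (E i)] [∀ i, IsCMField (E i)] {Φ : ∀ i, Set (E i →+* ℂ)}

/-- type relations over a splitting field -/
theorem type_iff {L : Type} [Field L] [NumberField L] [IsGalois ℚ L]
    (j : L →+* ℂ) (h : ∀ i, ∀ ψ : E i →+* ℂ, ∃ φ : E i →+* L, j.comp φ = ψ)
    (n : ∀ i, (E i →+* ℂ) → ℤ) :
    IsTypeRelation Φ n ↔ IsRel Φ j fun i φ => n i (j.comp φ) := by
  classical
  have key : ∀ (σ : ℂ ≃+* ℂ) (g : L ≃ₐ[ℚ] L), (∀ x, σ (j x) = j (g x)) →
      (∑ i, ∑ φ : E i →+* ℂ, {φ : E i →+* ℂ | (σ : ℂ →+* ℂ).comp φ ∈ Φ i}.indicator (n i) φ) =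
        part j Φ (fun i φ => n i (j.comp φ)) g := by
    intro σ g hσ
    unfold part
    refine Finset.sum_congr rfl fun i _ => ?_
    refine (Fintype.sum_equiv (emb j h i) _ _ fun φ => ?_).symm
    have h1 : (σ : ℂ →+* ℂ).comp (j.comp φ) = j.comp (g • φ) := by
      ext x
      exact hσ (φ x)
    rw [emb_apply]
    by_cases h2 : j.comp (g • φ) ∈ Φ i
    · rw [if_pos h2, Set.indicator_of_mem]
      change (σ : ℂ →+* ℂ).comp (j.comp φ) ∈ Φ i
      rw [h1]
      exact h2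
    · rw [if_neg h2, Set.indicator_of_notMem]
      change (σ : ℂ →+* ℂ).comp (j.comp φ) ∉ Φ i
      rw [h1]
      exact h2
  constructor
  · rintro ⟨h1, h2⟩
    have hodd : ∀ i (φ : E i →+* L), n i (j.comp (cbar φ)) = -n i (j.comp φ) := by
      intro i φ
      rw [comp_cbar, h1]
    refine ⟨hodd, fun g => ?_⟩
    obtain ⟨σ, hσ⟩ := exists_aut j (g : L ≃+* L)
    rw [two_part j Φ hodd g, ← key σ g hσ, h2 σ, mul_zero]
  · intro hc
    refine ⟨fun i ψ => ?_, fun σ => ?_⟩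
    · obtain ⟨φ, rfl⟩ := h i ψ
      rw [← comp_cbar]
      exact hc.1 i φ
    · obtain ⟨g, hg⟩ := Pool.Agent.N90.TD.exists_comp j ((σ : ℂ →+* ℂ).comp j)
      rw [key σ g fun x => RingHom.congr_fun hg x]
      have h1 := two_part (c := fun i φ => n i (j.comp φ)) j Φ hc.1 g
      rw [hc.2 g] at h1
      omega

/-- **The exact criterion for Hodge classes.** -/
theorem crit_hodge [Nonempty ι] (hΦ : ∀ i, IsCMType (Φ i)) (hsep : Separated Φ) {J : Type}
    [Fintype J] (t : J → ι) :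
    HodgeGenerated (per Φ t) ↔ OnlyTrivialTypeRelations Φ (mult t) := by
  classical
  obtain ⟨L, _, _, _, _, j, hL⟩ := exists_cm ⟨ι, fun i => ⟨E i, Φ i, hΦ i⟩⟩
  constructor
  · intro hgen n hn hle
    by_contra hcon
    push Not at hcon
    obtain ⟨i, ψ, hne⟩ := hcon
    obtain ⟨φ, rfl⟩ := hL i ψ
    exact not_generated_of_rel hΦ t j hsep hL
      (fun i φ => n i (j.comp φ)) ((type_iff j hL n).1 hn) (fun i φ => hle i _)
      ⟨i, φ, hne⟩ hgen
  · intro hrel
    refine hodge_of_bounded hΦ t j hL fun c hc hle => ?_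
    have h1 : (fun i φ => (fun i ψ => c i ((emb j hL i).symm ψ)) i (j.comp φ)) = c := by
      funext i φ
      change c i ((emb j hL i).symm (emb j hL i φ)) = c i φ
      rw [Equiv.symm_apply_apply]
    have h2 := hrel (fun i ψ => c i ((emb j hL i).symm ψ))
      ((type_iff j hL _).2 (by rw [h1]; exact hc)) (fun i ψ => hle i _)
    intro i φ
    have h3 := h2 i (emb j hL i φ)
    simp only [Equiv.symm_apply_apply] at h3
    exact h3

/-- **Short relations.** -/
theorem short_type [Nonempty ι] (hΦ : ∀ i, IsCMType (Φ i)) {g N : ℕ}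
    (hg : ∑ i, finrank ℚ (E i) = 2 * g)
    (hN : (g - 1) ^ (g - 1) < 4 ^ (g - 2) * (N + 1) ^ 2)
    (h : OnlyTrivialTypeRelations Φ fun _ => N) (n : ∀ i, (E i →+* ℂ) → ℤ)
    (hn : IsTypeRelation Φ n) (i : ι) (φ : E i →+* ℂ) : n i φ = 0 := by
  classical
  obtain ⟨L, _, _, _, _, j, hL⟩ := exists_cm ⟨ι, fun i => ⟨E i, Φ i, hΦ i⟩⟩
  by_contra hne
  have hg1 : 1 ≤ g := by
    obtain ⟨i⟩ := ‹Nonempty ι›
    have h2 : finrank ℚ (E i) ≤ ∑ i, finrank ℚ (E i) :=
      Finset.single_le_sum (f := fun i => finrank ℚ (E i)) (fun _ _ => Nat.zero_le _)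
        (Finset.mem_univ i)
    have h3 : 0 < finrank ℚ (E i) := finrank_pos
    omega
  obtain ⟨k, rfl⟩ : ∃ k, g = k + 1 := ⟨g - 1, by omega⟩
  obtain ⟨φ', rfl⟩ := hL i φ
  obtain ⟨c', hc', hne', hle⟩ := Pool.Agent.N90.UB.small_rel hΦ j hL hg
    (fun i φ => n i (j.comp φ)) ((type_iff j hL n).1 hn) ⟨i, φ', hne⟩
  have h1 : (fun i φ => (fun i ψ => c' i ((emb j hL i).symm ψ)) i (j.comp φ)) = c' := by
    funext i φ
    change c' i ((emb j hL i).symm (emb j hL i φ)) = c' i φ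
    rw [Equiv.symm_apply_apply]
  have h2 := h (fun i ψ => c' i ((emb j hL i).symm ψ))
    ((type_iff j hL _).2 (by rw [h1]; exact hc')) (fun i ψ => by
      have h3 := hle i ((emb j hL i).symm ψ)
      have h4 : (c' i ((emb j hL i).symm ψ)) ^ 2 < ((N : ℤ) + 1) ^ 2 := by
        have h5 : (4 : ℤ) ^ (k - 1) * (c' i ((emb j hL i).symm ψ)) ^ 2 <
            4 ^ (k - 1) * ((N : ℤ) + 1) ^ 2 := by
          refine lt_of_le_of_lt h3 ?_
          have h6 : k ^ k < 4 ^ (k - 1) * (N + 1) ^ 2 := by simpa using hN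
          exact_mod_cast h6
        exact lt_of_mul_lt_mul_left h5 (by positivity)
      have h5 := abs_lt_of_sq_lt_sq h4 (by positivity)
      exact Int.lt_add_one_iff.1 h5)
  obtain ⟨i', φ'', hne''⟩ := hne'
  apply hne''
  have h3 := h2 i' (emb j hL i' φ'')
  simp only [Equiv.symm_apply_apply] at h3
  exact h3

/-- **The exact criterion over number fields.** -/
theorem crit_tate [Nonempty ι] (hΦ : ∀ i, IsCMType (Φ i)) (hsep : Separated Φ) (ℓ : ℕ)
    [Fact ℓ.Prime] {Γ : Type} [Group Γ] [TopologicalSpace Γ] [IsTopologicalGroup Γ]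
    (ρ : Γ →* TensorProduct ℚ ℚ_[ℓ] (∀ i, E i)) (χ : Γ →* ℚ_[ℓ])
    (h : Pool.Agent.N90.CZ.IsCMRepresentation ℓ E Φ ρ χ) {J : Type} [Fintype J] (t : J → ι) :
    (∀ m, Pool.Agent.N90.CZ.TateGeneratedIn ρ χ t m) ↔
      OnlyTrivialTypeRelations Φ (mult t) := by
  rw [← crit_hodge hΦ hsep t]
  exact forall_congr' fun m => Pool.Agent.N90.CZ.generated_iff hΦ hsep h t m

/-- **The exact criterion for the reductions.** -/
theorem crit_red [Nonempty ι] (hΦ : ∀ i, IsCMType (Φ i)) (hsep : Separated Φ) (p : ℕ)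
    [Fact p.Prime] (π : ∀ i, E i) (h : IsOrdinaryReduction Φ p π) (K : Type) [Field K]
    [CharZero K] {J : Type} [Fintype J] (t : J → ι) :
    Pool.Agent.N90.TD.TateGenerated (Pool.Agent.N90.TD.frob K π t) p ↔
      OnlyTrivialTypeRelations Φ (mult t) := by
  obtain ⟨ν, hint, hweil, hone, hzero⟩ := h
  obtain ⟨hfam, htyp⟩ := Pool.Agent.N90.CZ.family_of_frob hsep ν π hint hweil hone hzero
  rw [← crit_hodge hΦ hsep t, ← htyp, ← Pool.Agent.N90.TD.generated_iff hfam ν, pow_one]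
  exact ⟨fun h => Pool.Agent.N90.TD.generated_down _ _ h,
    fun h => Pool.Agent.N90.TD.generated_up _ _ h⟩

end

end Pool.Agent.U173.TT
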