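import Pool.Agent.U173.TT.Defs
import Pool.Agent.N90.TD.Main

/-!
# Exact criterion for the generation of Tate classes by divisors
-/

set_option autoImplicit false
set_option linter.unusedSectionVars false

namespace Pool.Agent.U173.TT

open NumberField Module Equiv Pool.Agent.H204R3.CM Pool.Agent.H977R3.CM Pool.Agent.W546.GHC
  Pool.Agent.W547.KB Pool.Agent.W530.NF Pool.Agent.N90.HG Pool.Agent.N90.TD

noncomputable section

variable {p a : ℕ} [Fact p.Prime] {ι : Type} [Fintype ι] {E : ι → Type} [∀ i, Field (E i)]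
  [∀ i, NumberField (E i)] [∀ i, IsCMField (E i)] {π : ∀ i, E i}
  (hπ : IsOrdinaryFamily p a E π) (ν : PadicAlgCl p ≃+* ℂ)

theorem prod_zpow' {β K : Type} [Field K] {x : K} (hx : x ≠ 0) (s : Finset β) (f : β → ℤ) :
    ∏ b ∈ s, x ^ f b = x ^ ∑ b ∈ s, f b := by
  classical
  induction s using Finset.induction_on with
  | empty => simp
  | insert b s hb ih => rw [Finset.prod_insert hb, Finset.sum_insert hb, ih, zpow_add₀ hx]

section L

variable {L : Type} [Field L] [NumberField L] (j : L →+* ℂ)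

/-- the monomial of the relation `c` -/
def mon (π : ∀ i, E i) (c : ∀ i, (E i →+* L) → ℤ) : L := ∏ i, ∏ φ : E i →+* L, φ (π i) ^ c i φ

theorem sum_zero {c : ∀ i, (E i →+* L) → ℤ} (h : ∀ i φ, c i (cbar φ) = -c i φ) :
    ∑ i, ∑ φ : E i →+* L, c i φ = 0 := by
  refine Finset.sum_eq_zero fun i _ => ?_
  have h1 : ∑ φ : E i →+* L, c i φ = ∑ φ : E i →+* L, c i (cbar φ) :=
    (Fintype.sum_equiv (Equiv.mk (fun φ : E i →+* L => cbar φ) (fun φ => cbar φ)
      (fun φ => cbar_cbar φ) (fun φ => cbar_cbar φ)) _ _ (fun φ => rfl)).symm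
  simp only [h, Finset.sum_neg_distrib] at h1
  omega

include hπ in
theorem pi_ne {i : ι} : π i ≠ 0 := by
  intro h0
  obtain ⟨φ⟩ : Nonempty (E i →+* ℂ) := inferInstance
  have h1 := hπ.weil i φ
  rw [h0, map_zero, norm_zero] at h1
  have h2 : (0 : ℝ) < (p : ℝ) ^ a := by
    have := (Fact.out : p.Prime).pos
    positivity
  rw [← h1] at h2
  norm_num at h2

/-- the sum of the coefficients over the type -/
def part (Φ : ∀ i, Set (E i →+* ℂ)) (c : ∀ i, (E i →+* L) → ℤ) (σ : L ≃ₐ[ℚ] L) : ℤ :=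
  ∑ i, ∑ φ : E i →+* L, (open Classical in if j.comp (σ • φ) ∈ Φ i then c i φ else 0)

theorem two_part (Φ : ∀ i, Set (E i →+* ℂ)) {c : ∀ i, (E i →+* L) → ℤ}
    (h : ∀ i φ, c i (cbar φ) = -c i φ) (σ : L ≃ₐ[ℚ] L) :
    ∑ i, ∑ φ : E i →+* L,
      c i φ * (open Classical in if j.comp (σ • φ) ∈ Φ i then (1 : ℤ) else -1) =
      2 * part j Φ c σ := by
  classical
  have h1 := sum_zero h
  have h2 : 2 * part j Φ c σ - ∑ i, ∑ φ : E i →+* L, c i φ = ∑ i, ∑ φ : E i →+* L,
      c i φ * (if j.comp (σ • φ) ∈ Φ i then (1 : ℤ) else -1) := by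
    unfold part
    rw [Finset.mul_sum, ← Finset.sum_sub_distrib]
    refine Finset.sum_congr rfl fun i _ => ?_
    rw [Finset.mul_sum, ← Finset.sum_sub_distrib]
    refine Finset.sum_congr rfl fun φ _ => ?_
    split_ifs <;> ring
  rw [h1, sub_zero] at h2
  exact h2.symm

include hπ in
/-- the `p`-adic absolute values of the monomial -/
theorem norm_mon (c : ∀ i, (E i →+* L) → ℤ) (σ : L ≃ₐ[ℚ] L) :
    ‖ν.symm (j (σ (mon π c)))‖ = ‖(p : PadicAlgCl p) ^ a‖ ^ part j (typ π ν) c σ := by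
  classical
  have hpos := norm_q_pos (p := p) (a := a)
  unfold mon part
  rw [map_prod, map_prod, map_prod, norm_prod, ← prod_zpow' hpos.ne']
  refine Finset.prod_congr rfl fun i _ => ?_
  rw [map_prod, map_prod, map_prod, norm_prod, ← prod_zpow' hpos.ne']
  refine Finset.prod_congr rfl fun φ _ => ?_
  rw [map_zpow₀, map_zpow₀, map_zpow₀, norm_zpow]
  have h4 : j (σ (φ (π i))) = (j.comp (σ • φ)) (π i) := rfl
  rw [h4]
  split_ifs with h3
  · rw [slope_one hπ ν i _ h3]
  · rw [slope_zero hπ ν i _ h3, one_zpow, zpow_zero]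

include hπ in
/-- **Relations between the types are relations between the eigenvalues.** -/
theorem root_of_rel [IsGalois ℚ L] (c : ∀ i, (E i →+* L) → ℤ) (hc : IsRel (typ π ν) j c) :
    ∃ s : ℕ, 0 < s ∧ mon π c ^ s = 1 := by
  classical
  obtain ⟨hodd, hsum⟩ := hc
  apply root_of_unity
  · intro θ
    have hp : (0 : ℝ) < (p : ℝ) ^ a := by
      have := (Fact.out : p.Prime).pos
      positivity
    have h1 : ‖θ (mon π c)‖ = 1 := by
      unfold mon
      rw [map_prod, norm_prod]
      have h2 : ∀ i, ‖θ (∏ φ : E i →+* L, φ (π i) ^ c i φ)‖ =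
          √((p : ℝ) ^ a) ^ (∑ φ : E i →+* L, c i φ) := by
        intro i
        rw [map_prod, norm_prod, ← prod_zpow' (Real.sqrt_pos.2 hp).ne']
        refine Finset.prod_congr rfl fun φ _ => ?_
        rw [map_zpow₀, norm_zpow]
        congr 1
        have h3 := hπ.weil i (θ.comp φ)
        rw [← h3]
        rw [Real.sqrt_sq (norm_nonneg _)]
        rfl
      rw [Finset.prod_congr rfl fun i _ => h2 i,
        prod_zpow' (Real.sqrt_pos.2 hp).ne', sum_zero hodd, zpow_zero]
    exact h1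
  · intro l _ e
    by_cases hl : l = p
    · subst hl
      obtain ⟨g, hg⟩ := exists_comp j ((ν : PadicAlgCl l →+* ℂ).comp e)
      have h1 : ∀ y : L, e y = ν.symm (j (g y)) := by
        intro y
        have h2 := RingHom.congr_fun hg y
        have h3 : ν (e y) = j (g y) := h2
        rw [← h3, RingEquiv.symm_apply_apply]
      rw [h1, norm_mon hπ ν j c g]
      have h2 := two_part j (typ π ν) hodd g
      rw [hsum g] at h2
      have h3 : part j (typ π ν) c g = 0 := by omega
      rw [h3, zpow_zero]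
    · unfold mon
      rw [map_prod, norm_prod]
      refine Finset.prod_eq_one fun i _ => ?_
      rw [map_prod, norm_prod]
      refine Finset.prod_eq_one fun φ _ => ?_
      rw [map_zpow₀, norm_zpow]
      have h2 : ‖e (φ (π i))‖ = 1 := norm_other hπ _ l hl (e.comp φ)
      rw [h2, one_zpow]

include hπ in
/-- **Relations between the eigenvalues are relations between the types.** -/
theorem rel_of_root (c : ∀ i, (E i →+* L) → ℤ) (hodd : ∀ i φ, c i (cbar φ) = -c i φ) {s : ℕ}
    (hs : 0 < s) (h : mon π c ^ s = 1) : IsRel (typ π ν) j c := by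
  classical
  refine ⟨hodd, fun σ => ?_⟩
  have h1 := norm_mon hπ ν j c σ
  have h2 : ‖ν.symm (j (σ (mon π c)))‖ ^ s = 1 := by
    rw [← norm_pow, ← map_pow, ← map_pow, ← map_pow, h, map_one, map_one, map_one, norm_one]
  have h3 : ‖ν.symm (j (σ (mon π c)))‖ = 1 :=
    (pow_eq_one_iff_of_nonneg (norm_nonneg _) hs.ne').1 h2
  rw [h3] at h1
  have h4 : part j (typ π ν) c σ = 0 := by
    by_contra h5
    exact h5 ((zpow_eq_one_iff_right₀ (norm_nonneg _) (norm_q_lt (p := p) hπ.pos).ne).1 h1.symm)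
  rw [two_part j (typ π ν) hodd σ, h4, mul_zero]

end L

end

end Pool.Agent.U173.TT
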