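import Mathlib

/-!
# Angle relations between the Frobenius eigenvalues
-/

set_option autoImplicit false

namespace Pool.Agent.U173.TT

open NumberField

/-- The numbers `φ (π i)`, for the embeddings `φ` of the field `E i` into the complex numbers, are the
Frobenius eigenvalues of the abelian variety `A i`. An angle relation is a system of integral exponents
`n (i, φ)` with `n (i, conjugate φ) = - n (i, φ)` such that the product of the `φ (π i) ^ n (i, φ)` is a root
of unity. (So this product is the product of the numbers `(φ (π i) / conj (φ (π i))) ^ n (i, φ)` over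
representatives of the pairs of conjugate embeddings, and this is a multiplicative relation between
these numbers, up to roots of unity.) -/
def IsAngleRelation {ι : Type} [Fintype ι] {E : ι → Type} [∀ i, Field (E i)]
    [∀ i, NumberField (E i)] (π : ∀ i, E i) (n : ∀ i, (E i →+* ℂ) → ℤ) : Prop :=
  (∀ i φ, n i (ComplexEmbedding.conjugate φ) = -n i φ) ∧
    ∃ s : ℕ, 0 < s ∧ (∏ i, ∏ φ : E i →+* ℂ, φ (π i) ^ n i φ) ^ s = 1

/-- All angle relations with exponents of absolute value at most `b i` for the embeddings of `E i`
are trivial. -/
def OnlyTrivialRelations {ι : Type} [Fintype ι] {E : ι → Type} [∀ i, Field (E i)]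
    [∀ i, NumberField (E i)] (π : ∀ i, E i) (b : ι → ℕ) : Prop :=
  ∀ n : ∀ i, (E i →+* ℂ) → ℤ, IsAngleRelation π n → (∀ i φ, |n i φ| ≤ b i) → ∀ i φ, n i φ = 0

end Pool.Agent.U173.TT
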