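import Pool.Agent.N90.CZ.Defs

/-!
# Relations between the conjugates of CM types
-/

set_option autoImplicit false

namespace Pool.Agent.U173.TT

open NumberField

/-- Let `Φ i` be a set of complex embeddings of the number field `E i`. A type relation is a system of
integers `n (i, φ)` with `n (i, conjugate φ) = - n (i, φ)` such that for each automorphism `σ` of the
complex numbers the sum of the `n (i, φ)` over all `(i, φ)` with `σ ∘ φ` in `Φ i` is zero. -/
def IsTypeRelation {ι : Type} [Fintype ι] {E : ι → Type} [∀ i, Field (E i)]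
    [∀ i, NumberField (E i)] (Φ : ∀ i, Set (E i →+* ℂ)) (n : ∀ i, (E i →+* ℂ) → ℤ) : Prop :=
  (∀ i φ, n i (ComplexEmbedding.conjugate φ) = -n i φ) ∧
    ∀ σ : ℂ ≃+* ℂ, ∑ i, ∑ φ : E i →+* ℂ,
      {φ : E i →+* ℂ | (σ : ℂ →+* ℂ).comp φ ∈ Φ i}.indicator (n i) φ = 0

/-- All type relations with coefficients of absolute value at most `b i` for the embeddings of `E i`
are trivial. -/
def OnlyTrivialTypeRelations {ι : Type} [Fintype ι] {E : ι → Type} [∀ i, Field (E i)]
    [∀ i, NumberField (E i)] (Φ : ∀ i, Set (E i →+* ℂ)) (b : ι → ℕ) : Prop :=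
  ∀ n : ∀ i, (E i →+* ℂ) → ℤ, IsTypeRelation Φ n → (∀ i φ, |n i φ| ≤ b i) → ∀ i φ, n i φ = 0

/-- `π` is the Frobenius endomorphism of the reduction, over the field with `p` elements, at a place of
degree one, of the product of the abelian varieties with complex multiplication by the `E i` and CM types
`Φ i`: by Weil the `π i` are algebraic integers with absolute values `√p`, and by the theorem of
Shimura and Taniyama the `p`-adic absolute values of the conjugates are given by the CM types. -/
def IsOrdinaryReduction {ι : Type} {E : ι → Type} [∀ i, Field (E i)] (Φ : ∀ i, Set (E i →+* ℂ))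
    (p : ℕ) [Fact p.Prime] (π : ∀ i, E i) : Prop :=
  ∃ ν : PadicAlgCl p ≃+* ℂ, (∀ i, IsIntegral ℤ (π i)) ∧
    (∀ i (φ : E i →+* ℂ), ‖φ (π i)‖ ^ 2 = p) ∧
    (∀ i, ∀ φ ∈ Φ i, ‖ν.symm (φ (π i))‖ = ‖(p : PadicAlgCl p)‖) ∧
    (∀ i, ∀ φ ∉ Φ i, ‖ν.symm (φ (π i))‖ = 1)

/-- `mul t i` is the number of `j` with `t j = i`, the multiplicity `mᵢ` of `A i` in `∏ A (t j)`. -/
noncomputable def mul {ι J : Type} (t : J → ι) (i : ι) : ℕ :=
  Nat.card {j : J // t j = i}

section

variable {K V Γ : Type} [Field K] [AddCommGroup V] [Module K V] [Group Γ] [TopologicalSpace Γ]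
  (a : Γ → V →ₗ[K] V) (χ : Γ →* K)

/-- Let the Galois group `Γ` act on the rational Tate module `V` of an abelian variety `A`, `s` by
`a s`, and let `χ` be the cyclotomic character. The elements of `H^{2m}(A, K(m))` are the alternating
forms in `2 m` variables on `V`. Such a form `f` is a *Tate class*, over some finite extension of the
ground field, if it is fixed by an open subgroup `Δ` of the Galois group, that is, if the elements
`s` of `Δ` multiply `f` by `χ(s) ^ m`. -/
def IsTateForm {κ : Type} (m : ℕ) (f : V [⋀^κ]→ₗ[K] K) : Prop :=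
  ∃ Δ : Subgroup Γ, IsOpen (Δ : Set Γ) ∧ Δ.FiniteIndex ∧
    ∀ s ∈ Δ, ∀ v : κ → V, f (fun k => a s (v k)) = χ s ^ m * f v

/-- The products `B 0 ∧ ... ∧ B (m - 1)` of Tate classes of degree two (by the theorem of Faltings
these are the linear combinations of classes of divisors). -/
def divisorForms (m : ℕ) : Set (V [⋀^Fin m × Fin 2]→ₗ[K] K) :=
  {g | ∃ B : Fin m → V [⋀^Fin 2]→ₗ[K] K, (∀ l, IsTateForm a χ 1 (B l)) ∧
    ∀ v, g v = ∑ σ : Equiv.Perm (Fin m × Fin 2), ((Equiv.Perm.sign σ : ℤ) : K) *
      ∏ l, B l ![v (σ (l, 0)), v (σ (l, 1))]}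

/-- All Tate classes on `A`, in all degrees and over all finite extensions of the ground field, are
linear combinations of products of classes of divisors. (So the Tate conjecture holds for `A` over
all finite extensions of the ground field, and there are no exotic Tate classes.) -/
def DivisorGenerated : Prop :=
  ∀ (m : ℕ) (f : V [⋀^Fin m × Fin 2]→ₗ[K] K), IsTateForm a χ m f →
    f ∈ Submodule.span K (divisorForms a χ m)

end

section

open Pool.Agent.N90.CZ (IsCMRepresentation)
open Pool.Agent.N90.TD (TateGenerated frob)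
open scoped TensorProduct

variable {ι : Type} {E : ι → Type} [∀ i, Field (E i)] [∀ i, CharZero (E i)]
  (Φ : ∀ i, Set (E i →+* ℂ)) {J : Type} (t : J → ι)

/-- For all number fields `k` and all prime numbers `ℓ`, the Tate classes on `∏ A (t j)`, in all
degrees and over all finite extensions of `k`, are linear combinations of products of classes of
divisors if and only if `P` holds. -/
def TateIff (P : Prop) : Prop :=
  ∀ (ℓ : ℕ) [Fact ℓ.Prime] (Γ : Type) [Group Γ] [TopologicalSpace Γ] [IsTopologicalGroup Γ]
    (ρ : Γ →* ℚ_[ℓ] ⊗[ℚ] (∀ i, E i)) (χ : Γ →* ℚ_[ℓ]), IsCMRepresentation ℓ E Φ ρ χ →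
    (DivisorGenerated (fun s => Pool.Agent.N90.CZ.act t (ρ s)) χ ↔ P)

/-- For one number field `k` and one prime number `ℓ`, the Tate classes on `∏ A (t j)`, in all
degrees and over all finite extensions of `k`, are linear combinations of products of classes of
divisors. -/
def TateOnce : Prop :=
  ∃ (ℓ : ℕ) (_ : Fact ℓ.Prime) (Γ : Type) (_ : Group Γ) (_ : TopologicalSpace Γ)
    (_ : IsTopologicalGroup Γ) (ρ : Γ →* ℚ_[ℓ] ⊗[ℚ] (∀ i, E i)) (χ : Γ →* ℚ_[ℓ]),
    IsCMRepresentation ℓ E Φ ρ χ ∧ DivisorGenerated (fun s => Pool.Agent.N90.CZ.act t (ρ s)) χ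

/-- For all prime numbers `p` and all places of degree one above `p`, the Tate classes on the
reduction of `∏ A (t j)`, in all degrees and over all finite extensions of the residue field, with
coefficients in any field `K` of characteristic zero, are linear combinations of products of classes
of divisors if and only if `P` holds. -/
def ReductionIff [Fintype J] (P : Prop) : Prop :=
  ∀ (p : ℕ) [Fact p.Prime] (π : ∀ i, E i), IsOrdinaryReduction Φ p π →
    ∀ (K : Type) [Field K] [CharZero K], (TateGenerated (frob K π t) p ↔ P)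

end

end Pool.Agent.U173.TT
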